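import Pool.Agent.H4.Tens1

set_option autoImplicit false

namespace Pool.Agent.Results.MP_a9d09b_co.NoTensor

open Finset Function Matrix Pool.Agent.H4.Tens
open scoped Classical

variable {p : ℕ} [Fact p.Prime]

theorem sylv {α β : Type} [Fintype α] [Fintype β] (B : Matrix β α (ZMod p)) (C : Matrix α β (ZMod p)) :
    B.rank + C.rank ≤ (B * C).rank + Fintype.card α := by
  have h1 := LinearMap.finrank_range_add_finrank_ker (B.mulVecLin.domRestrict C.mulVecLin.range)
  have h2 := LinearMap.finrank_range_add_finrank_ker B.mulVecLin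
  rw [LinearMap.range_domRestrict, ← LinearMap.range_comp, ← mulVecLin_mul] at h1
  have h3 : Module.finrank (ZMod p) (B.mulVecLin.domRestrict C.mulVecLin.range).ker ≤
      Module.finrank (ZMod p) B.mulVecLin.ker := by
    rw [← Submodule.finrank_map_subtype_eq]
    refine Submodule.finrank_mono ?_
    rintro _ ⟨x, hx, rfl⟩
    exact hx
  simp only [Module.finrank_fintype_fun_eq_card] at h2
  unfold Matrix.rank
  omega

theorem lowrank {α β γ : Type} [Fintype α] [Fintype β] [Fintype γ] [DecidableEq γ] (E : α × β ≃ γ) (r s : ℕ)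
    (ha : Fintype.card α = r + s) (hb : Fintype.card β = r + s) :
    (univ.filter (fun y : γ → ZMod p => (of fun a b => y (E (a, b))).rank ≤ r)).card ≤
      2 ^ (r + s) * p ^ ((r + s) * r + r * s) := by
  let f : (S : Finset β) → (α → S → ZMod p) × (S → (Sᶜ : Finset β) → ZMod p) → γ → ZMod p :=
    fun S q c => if h : (E.symm c).2 ∈ S then q.1 (E.symm c).1 ⟨_, h⟩ else
      ∑ j, q.2 j ⟨_, mem_compl.2 h⟩ * q.1 (E.symm c).1 j
  refine (card_le_card (t := (powersetCard r univ).biUnion (fun S => univ.image (f S)))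
    (fun y hy => ?_)).trans (card_biUnion_le.trans ((sum_le_card_nsmul _ _ _ (fun S hS =>
      card_image_le.trans (le_of_eq ?_))).trans (Nat.mul_le_mul_right _ ?_)))
  · set M : Matrix α β (ZMod p) := of fun a b => y (E (a, b)) with hM
    obtain ⟨κ, a, a1, a2, a3⟩ := exists_linearIndependent' (ZMod p) M.col
    have := Fintype.ofInjective a a1
    have h1 : (univ.image a).card ≤ r := by
      rw [card_image_of_injective _ a1, card_univ, ← finrank_span_eq_card a3, a2,
        ← rank_eq_finrank_span_cols]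
      exact (mem_filter.1 hy).2
    obtain ⟨S, s1, -, s2⟩ := exists_subsuperset_card_eq (subset_univ _) h1 (by simp [hb])
    have : ∀ b, ∃ c : S → ZMod p, ∑ j, c j • M.col j = M.col b := fun b => by
      rw [← Submodule.mem_span_range_iff_exists_fun]
      refine Submodule.span_mono ?_ (a2.ge (Submodule.subset_span ⟨b, rfl⟩))
      rintro _ ⟨i, rfl⟩
      exact ⟨⟨a i, s1 (mem_image_of_mem _ (mem_univ i))⟩, rfl⟩
    choose c hc using this
    refine mem_biUnion.2 ⟨S, mem_powersetCard.2 ⟨subset_univ _, s2⟩, mem_image.2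
      ⟨(fun a j => M a j, fun j b => c b j), mem_univ _, funext fun x => ?_⟩⟩
    obtain ⟨⟨u, v⟩, rfl⟩ := E.surjective x
    simp only [f, Equiv.symm_apply_apply]
    split_ifs
    · rfl
    · simpa [hM] using congrFun (hc v) u
  · simp [ha, hb, (mem_powersetCard.1 hS).2, ← pow_add, ← pow_mul, mul_comm, add_comm]
  · rw [card_powersetCard, card_univ, hb]; exact Nat.choose_le_two_pow _ _

theorem bad {α β γ : Type} [Fintype α] [Fintype β] [Fintype γ] [DecidableEq γ] (E : α × β ≃ γ) (K : ℕ)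
    (ha : Fintype.card α = K) (hb : Fintype.card β = K) :
    p ^ ((K - 2 * K / 3) ^ 2 - K - 2) * (univ.filter (fun Y : Fin 4 → γ → ZMod p =>
      (of fun a b => Y 0 (E (a, b))) * ((of fun a b => Y 2 (E (a, b)))ᵀ *
        (of fun a b => Y 3 (E (a, b)))) = 0)).card ≤ Fintype.card (Fin 4 → γ → ZMod p) := by
  rcases le_total ((K - 2 * K / 3) ^ 2) (K + 2) with h0 | h0
  · rw [show (K - 2 * K / 3) ^ 2 - K - 2 = 0 by omega, pow_zero, one_mul]; exact card_le_univ _
  obtain ⟨r, hr⟩ : ∃ r, r = 2 * K / 3 := ⟨_, rfl⟩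
  obtain ⟨s, rfl⟩ : ∃ s, K = r + s := ⟨K - r, by omega⟩
  rw [← hr, Nat.add_sub_cancel_left] at h0 ⊢
  obtain ⟨e, he⟩ : ∃ e, s ^ 2 = e + (r + s) + 2 := ⟨s ^ 2 - (r + s) - 2, by omega⟩
  have hl := lowrank (p := p) E r s ha hb
  set L := univ.filter (fun y : γ → ZMod p => (of fun a b => y (E (a, b))).rank ≤ r) with hL
  have hg : Fintype.card γ = (r + s) * (r + s) := by rw [← Fintype.card_congr E]; simp [ha, hb]
  have h1 : ∀ i : Fin 4, (Fintype.piFinset (update (fun _ : Fin 4 => (univ : Finset (γ → ZMod p))) i L)).card =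
      L.card * (p ^ ((r + s) * (r + s))) ^ 3 := by
    intro i
    rw [Fintype.card_piFinset, ← mul_prod_erase univ _ (mem_univ i), update_self,
      prod_congr rfl (fun k hk => by rw [update_of_ne (ne_of_mem_erase hk)])]
    simp [hg]
  refine (Nat.mul_le_mul_left _ ((card_le_card (t := ({0, 2, 3} : Finset (Fin 4)).biUnion
    (fun i => Fintype.piFinset (update (fun _ : Fin 4 => (univ : Finset (γ → ZMod p))) i L))) (fun Y hY => ?_)).trans
      card_biUnion_le)).trans ?_
  · have h2 := rank_add_rank_le_card_of_mul_eq_zero (mem_filter.1 hY).2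
    have h3 := sylv (of fun a b => Y 2 (E (a, b)))ᵀ (of fun a b => Y 3 (E (a, b)))
    rw [rank_transpose] at h3
    simp only [mem_biUnion, Fintype.mem_piFinset, forall_update_iff _ (fun k s => Y k ∈ s), hL,
      mem_filter, mem_univ, true_and, implies_true, and_true, mem_insert, mem_singleton,
      exists_eq_or_imp, exists_eq_left]
    omega
  · have p2 := (Fact.out : p.Prime).two_le
    simp only [h1, sum_const, smul_eq_mul, Fintype.card_fun, ZMod.card, hg, Fintype.card_fin]
    rw [show s ^ 2 - (r + s) - 2 = e by omega, show ({0, 2, 3} : Finset (Fin 4)).card = 3 from rfl,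
      pow_succ' _ 3, ← mul_assoc, ← mul_assoc]
    refine Nat.mul_le_mul_right _ ?_
    rw [show (r + s) * (r + s) = e + 2 + ((r + s) + ((r + s) * r + r * s)) by nlinarith, pow_add,
      pow_add _ e, pow_add _ (r + s)]
    exact Nat.mul_le_mul (Nat.mul_le_mul_left _ (by nlinarith))
      (hl.trans (Nat.mul_le_mul_right _ (Nat.pow_le_pow_left p2 _)))

noncomputable def A (p k : ℕ) (I : Fin 4 → Bool × Fin k) : ZMod p :=
  (if I 0 = I 1 ∧ (I 0).1 = true then 1 else 0) * (if I 2 = I 3 ∧ (I 2).1 = true then 1 else 0) +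
  (if I 0 = I 2 ∧ (I 0).1 = false then 1 else 0) * (if I 1 = I 3 ∧ (I 1).1 = false then 1 else 0)

theorem A_two (k : ℕ) : Decomp (A p k) 2 := by
  refine ⟨![{0, 1}, {0, 2}], ![fun I => if I 0 = I 1 ∧ (I 0).1 = true then 1 else 0,
    fun I => if I 0 = I 2 ∧ (I 0).1 = false then 1 else 0],
    ![fun I => if I 2 = I 3 ∧ (I 2).1 = true then 1 else 0,
      fun I => if I 1 = I 3 ∧ (I 1).1 = false then 1 else 0], fun j => ?_, fun I => by simp [A]⟩
  fin_cases j
  · exact ⟨by simp, by decide, fun x y h => by simp [h 0 (by simp), h 1 (by simp)],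
      fun x y h => by simp [h 2 (by simp), h 3 (by simp)]⟩
  · exact ⟨by simp, by decide, fun x y h => by simp [h 0 (by simp), h 2 (by simp)],
      fun x y h => by simp [h 1 (by simp), h 3 (by simp)]⟩

theorem block (k m : ℕ) (X : Fin 4 → (Fin m → Bool × Fin k) → ZMod p) (hX : X ∈ Z (pow (A p k) m) 1)
    (S : Fin m → Bool) :
    let E := (Equiv.piEquivPiSubtypeProd (fun t => S t = true) (fun _ => Fin k)).symm
    (of fun a b => X 0 (fun t => (S t, E (a, b) t))) * ((of fun a b => X 2 (fun t => (S t, E (a, b) t)))ᵀ *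
      (of fun a b => X 3 (fun t => (S t, E (a, b) t)))) = 0 := by
  intro E
  ext a b
  have h := (mem_filter.1 hX).2 (Pi.single (fun t => (S t, E (a, b) t)) 1)
  rw [form_upd] at h
  simp only [mul_apply, mul_sum, of_apply, transpose_apply, Matrix.zero_apply]
  rw [← h, ← sum_product', univ_product_univ]
  have e1 : ∀ a b t (h : S t = true), E (a, b) t = a ⟨t, h⟩ := fun a b t h => dif_pos h
  have e2 : ∀ a b t (h : ¬ S t = true), E (a, b) t = b ⟨t, h⟩ := fun a b t h => dif_neg h
  refine Fintype.sum_of_injective (fun q => ![fun t => (S t, E (a, q.1) t), fun t => (S t, E (a, b) t),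
    fun t => (S t, E (q.2, q.1) t), fun t => (S t, E (q.2, b) t)]) (fun q q' h => ?_) _ _
    (fun I hI => ?_) (fun q => ?_)
  · have : E (q.2, q.1) = E (q'.2, q'.1) := funext fun t => congrArg Prod.snd (congrFun (congrFun h 2) t)
    have := E.injective this
    exact Prod.ext (congrArg Prod.snd this) (congrArg Prod.fst this)
  · by_contra hn
    have h1 : I 1 = fun t => (S t, E (a, b) t) := by
      by_contra h1; simp [h1] at hn
    have h2 := prod_ne_zero_iff.1 (left_ne_zero_of_mul hn)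
    refine hI ⟨(fun t => (I 0 t).2, fun t => (I 2 t).2), funext fun i => funext fun t => ?_⟩
    have h3 := h2 t (mem_univ t)
    have h4 := congrFun h1 t
    simp only [A] at h3
    by_cases h5 : S t = true
    · have : (I 0 t = I 1 t ∧ (I 0 t).1 = true) ∧ I 2 t = I 3 t ∧ (I 2 t).1 = true := by
        by_contra hn; apply h3; simp [h4, h5] at hn ⊢; grind
      fin_cases i <;> simp [e1 _ _ t h5] <;> grind
    · have : (I 0 t = I 2 t ∧ (I 0 t).1 = false) ∧ I 1 t = I 3 t ∧ (I 1 t).1 = false := by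
        by_contra hn; apply h3; simp [h4, h5] at hn ⊢; grind
      fin_cases i <;> simp [e2 _ _ t h5] <;> grind
  · rw [show (univ : Finset (Fin 4)).erase 1 = {0, 2, 3} from rfl, pow, prod_eq_one]
    · simp
    · intro t _
      by_cases h5 : S t = true
      · simp [A, h5, e1 _ _ t h5]
      · simp [A, h5, e2 _ _ t h5]

theorem power (k h : ℕ) : ((h + h).choose h * ((k ^ h - 2 * k ^ h / 3) ^ 2 - k ^ h - 2) : ℕ) ≤
    arank (pow (A p k) (h + h)) := by
  refine le_arank (d := 2) _ _ ?_
  let P : (Fin (h + h) → Bool) → Prop := fun S => (univ.filter (fun t => S t = true)).card = h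
  let B : (Fin (h + h) → Bool) → Finset (Fin 4 → (Fin (h + h) → Fin k) → ZMod p) := fun S =>
    let E := (Equiv.piEquivPiSubtypeProd (fun t => S t = true) (fun _ => Fin k)).symm
    univ.filter (fun Y => (of fun a b => Y 0 (E (a, b))) * ((of fun a b => Y 2 (E (a, b)))ᵀ *
        (of fun a b => Y 3 (E (a, b)))) = 0)
  have h1 : (Z (pow (A p k) (h + h)) 1).card ≤ ∏ S, (B S).card := by
    rw [← Fintype.card_piFinset]
    refine card_le_card_of_injOn (fun X S i c => X i (fun t => (S t, c t))) (fun X hX => ?_)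
      (fun X _ Y _ e => ?_)
    · exact mem_coe.2 (Fintype.mem_piFinset.2 fun S => mem_filter.2 ⟨mem_univ _, block k _ X hX S⟩)
    · ext i J
      exact congrFun (congrFun (congrFun e (fun t => (J t).1)) i) (fun t => (J t).2)
  have h2 : (univ.filter P).card = (h + h).choose h := by
    rw [show (h + h).choose h = (powersetCard h (univ : Finset (Fin (h + h)))).card by simp]
    refine card_bij (fun S _ => univ.filter (fun t => S t = true)) (fun S hS => ?_)
      (fun S _ T _ e => ?_) (fun T hT => ⟨fun t => t ∈ T, ?_, ?_⟩)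
    · exact mem_powersetCard.2 ⟨subset_univ _, (mem_filter.1 hS).2⟩
    · ext t; simpa using congrArg (t ∈ ·) e
    · simpa [P] using hT
    · simp
  rw [← h2, card_filter, sum_mul, ← prod_pow_eq_pow_sum]
  refine (Nat.mul_le_mul_left _ h1).trans ?_
  rw [← prod_mul_distrib]
  refine (prod_le_pow_card _ _ (Fintype.card (Fin 4 → (Fin (h + h) → Fin k) → ZMod p))
    (fun S _ => ?_)).trans (le_of_eq ?_)
  · split_ifs with hS
    · rw [one_mul]
      have c1 : Fintype.card {t // S t = true} = h := by rw [Fintype.card_subtype]; exact hS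
      refine bad _ _ (by simp [c1]) ?_
      rw [Fintype.card_fun, Fintype.card_subtype_compl, c1]; simp
    · simpa using card_le_univ (B S)
  · simp [← pow_mul, mul_pow]; ring

theorem id_big : ∃ k, 20 ≤ k ∧ (3 : ℕ) ≤ arank (idT 4 (Bool × Fin k) (ZMod p)) := by
  have p0 : (0 : ℝ) < p := by exact_mod_cast (Fact.out : p.Prime).pos
  have q1 : 1 ≤ p ^ 4 := Nat.one_le_pow _ _ (Fact.out : p.Prime).pos
  have y0 : (0 : ℝ) ≤ (p ^ 4 - 1 : ℕ) / p ^ 4 := by positivity
  have y1 : ((p ^ 4 - 1 : ℕ) : ℝ) / p ^ 4 < 1 := by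
    rw [div_lt_one (by positivity)]; exact_mod_cast Nat.sub_lt q1 one_pos
  obtain ⟨n, hn⟩ := exists_pow_lt_of_lt_one (show (0 : ℝ) < 1 / p ^ 3 by positivity) y1
  refine ⟨n + 20, by omega, le_arank (d := 2) _ _ ?_⟩
  have h1 : (Z (idT 4 (Bool × Fin (n + 20)) (ZMod p)) 1).card ≤ (p ^ 4 - 1) ^ (2 * (n + 20)) := by
    refine (card_le_card_of_injOn (t := Fintype.piFinset (fun _ => univ.erase 1)) (fun X l i => X i l)
      (fun X hX => ?_) (fun X _ Y _ e => ?_)).trans (by simp)
    · refine mem_coe.2 (Fintype.mem_piFinset.2 fun l => mem_erase.2 ⟨fun e => ?_, mem_univ _⟩)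
      have h := (mem_filter.1 hX).2 (Pi.single l 1)
      rw [form_upd, sum_eq_single (fun _ => l)] at h
      · simp [idT, show ∀ i, X i l = 1 from congrFun e] at h
      · intro I _ hI
        by_cases h1 : ∀ k l, I k = I l
        · have : I 1 ≠ l := fun h2 => hI (funext fun k => (h1 k 1).trans h2)
          simp [this]
        · simp [idT, h1]
      · simp
    · ext i l; exact congrFun (congrFun e l) i
  refine (Nat.mul_le_mul_left _ h1).trans ?_
  have := (pow_le_pow_of_le_one y0 y1.le (show n ≤ 2 * (n + 20) by omega)).trans hn.le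
  rw [div_pow, div_le_div_iff₀ (by positivity) (by positivity), one_mul, mul_comm] at this
  simp only [Fintype.card_fun, ZMod.card, Fintype.card_prod, Fintype.card_bool, Fintype.card_fin]
  rw [← pow_mul, mul_comm _ (2 + 2), pow_mul p]
  exact_mod_cast this

theorem result (p : ℕ) [Fact p.Prime] : ∃ (ι : Type) (_ : Fintype ι) (_ : DecidableEq ι) (T : (Fin 4 → ι) → ZMod p),
    (prank T < prank (idT 4 ι (ZMod p)) ∧ ∀ c : ℝ, c < 1 → ∃ m, 1 ≤ m ∧
      c ^ m * prank (pow (idT 4 ι (ZMod p)) m) ≤ prank (pow T m)) ∧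
    (arank T < arank (idT 4 ι (ZMod p)) ∧ ∀ c : ℝ, c < 1 → ∃ m, 1 ≤ m ∧
      c ^ m * arank (pow (idT 4 ι (ZMod p)) m) ≤ arank (pow T m)) := by
  obtain ⟨k, hk, hi⟩ := id_big (p := p)
  have : Nonempty (Fin k) := ⟨⟨0, by omega⟩⟩
  have ap : ∀ {ι : Type} [Fintype ι] [DecidableEq ι] [Nonempty ι] (T : (Fin 4 → ι) → ZMod p), arank T ≤ prank T :=
    fun T => arank_le (d := 2) T _ (Nat.sInf_mem (s := {r | Decomp T r}) ⟨_, slice (d := 2) T⟩)
  have nn : ∀ {ι : Type} [Fintype ι] [DecidableEq ι] (T : (Fin 4 → ι) → ZMod p), 0 ≤ arank T := fun T => by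
    simpa using le_arank (d := 2) T 0 (by simpa using card_le_univ (Z T 1))
  have a2 : prank (A p k) ≤ 2 := Nat.sInf_le (A_two k)
  have key : ∀ c : ℝ, c < 1 → ∃ m, 1 ≤ m ∧ ∀ x : ℝ, 0 ≤ x →
      x ≤ prank (pow (idT 4 (Bool × Fin k) (ZMod p)) m) → c ^ m * x ≤ arank (pow (A p k) m) := by
    intro c hc
    rcases le_or_gt c 0 with h0 | h0
    · exact ⟨1, le_rfl, fun x hx _ => le_trans (by nlinarith) (nn _)⟩
    have := (tendsto_self_mul_const_pow_of_lt_one (sq_nonneg c) (by nlinarith)).eventually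
      (gt_mem_nhds (show (0 : ℝ) < 1 / 36 by norm_num))
    obtain ⟨h, h1, h2⟩ := (this.and (Filter.eventually_ge_atTop 1)).exists
    refine ⟨h + h, by omega, fun x _ hx => le_trans ?_ (power k h)⟩
    have b1 : prank (pow (idT 4 (Bool × Fin k) (ZMod p)) (h + h)) ≤ 4 ^ h * (k ^ h) ^ 2 :=
      (Nat.sInf_le (slice (d := 2) _)).trans (le_of_eq (by
        simp only [Fintype.card_fun, Fintype.card_prod, Fintype.card_bool, Fintype.card_fin]
        rw [show 4 = 2 * 2 from rfl, mul_pow, mul_pow]; ring))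
    have b2 := Nat.four_pow_le_two_mul_self_mul_centralBinom h h2
    rw [Nat.centralBinom_eq_two_mul_choose, two_mul] at b2
    have b3 : 20 ≤ k ^ h := hk.trans (Nat.le_self_pow (by omega) k)
    generalize k ^ h = K at *
    have b4 : K ^ 2 ≤ 18 * ((K - 2 * K / 3) ^ 2 - K - 2) := by
      obtain ⟨s, hs⟩ : ∃ s, s = K - 2 * K / 3 := ⟨_, rfl⟩
      have : K ≤ 3 * s := by omega
      have : K ^ 2 ≤ 9 * s ^ 2 := by nlinarith
      have : 20 * K ≤ K ^ 2 := by nlinarith
      rw [← hs]; omega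
    have b5 : x ≤ (36 * h * ((h + h).choose h * ((K - 2 * K / 3) ^ 2 - K - 2)) : ℕ) :=
      hx.trans (by exact_mod_cast b1.trans ((Nat.mul_le_mul b2 b4).trans (le_of_eq (by ring))))
    rw [Nat.cast_mul _ (_ * _)] at b5
    refine (mul_le_mul_of_nonneg_left b5 (by positivity)).trans ?_
    rw [← mul_assoc]
    refine mul_le_of_le_one_left (by positivity) ?_
    rw [pow_add, ← mul_pow, ← sq]
    push_cast; linarith
  refine ⟨Bool × Fin k, inferInstance, inferInstance, A p k, ⟨?_, fun c hc => ?_⟩, ?_, fun c hc => ?_⟩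
  · have : 3 ≤ prank (idT 4 (Bool × Fin k) (ZMod p)) := by exact_mod_cast hi.trans (ap _)
    omega
  · obtain ⟨m, h1, h2⟩ := key c hc
    exact ⟨m, h1, (h2 _ (by positivity) le_rfl).trans (ap _)⟩
  · have : (prank (A p k) : ℝ) ≤ 2 := by exact_mod_cast a2
    push_cast at hi
    linarith [ap (A p k)]
  · obtain ⟨m, h1, h2⟩ := key c hc
    exact ⟨m, h1, h2 _ (nn _) (ap _)⟩

end Pool.Agent.Results.MP_a9d09b_co.NoTensor
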